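import Mathlib

set_option autoImplicit false

namespace Pool.Agent.Results.MP_a41a76_co.Twelve

open Finset

/-- `A g` is the agent who receives item `g`; agent `i` with item values `w` is EF1-satisfied -/
def EF1 {n m : ℕ} (w : Fin m → ℝ) (i : Fin n) (A : Fin m → Fin n) : Prop :=
  ∀ j ≠ i, ∑ x with A x = j, w x ≤ ∑ x with A x = i, w x ∨
    ∃ g, A g = j ∧ ∑ x with A x = j ∧ x ≠ g, w x ≤ ∑ x with A x = i, w x

def EFX {n m : ℕ} (w : Fin m → ℝ) (i : Fin n) (A : Fin m → Fin n) : Prop :=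
  ∀ j ≠ i, ∀ g, A g = j → 0 < w g → ∑ x with A x = j ∧ x ≠ g, w x ≤ ∑ x with A x = i, w x

def EEF1 {n m : ℕ} (w : Fin m → ℝ) (i : Fin n) (A : Fin m → Fin n) : Prop :=
  ∃ B : Fin m → Fin n, (∀ g, B g = i ↔ A g = i) ∧ EF1 w i B

def MXS {n m : ℕ} (w : Fin m → ℝ) (i : Fin n) (A : Fin m → Fin n) : Prop :=
  ∃ B : Fin m → Fin n, EFX w i B ∧ ∑ x with B x = i, w x ≤ ∑ x with A x = i, w x

theorem result : ∃ (n m : ℕ) (v : Fin n → Fin m → ℝ) (A : Fin m → Fin n), (∀ i g, 0 < v i g) ∧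
    (∀ i, MXS (v i) i A) ∧ ∃ i, ¬ EEF1 (v i) i A := by
  let w : Fin 12 → ℕ := ![1, 4, 3, 3, 5, 3, 3, 3, 5, 3, 3, 3]
  let A : Fin 12 → Fin 3 := ![0, 1, 1, 1, 0, 1, 1, 2, 0, 2, 2, 2]
  refine ⟨3, 12, fun _ g => (w g : ℝ), A, ?_, fun i => ⟨fun g => Fin.ofNat 3 (g.1 / 4) + i, ?_⟩, 0, ?_⟩
  · simp only [Nat.cast_pos]; decide
  · simp only [EFX, ← Nat.cast_sum, Nat.cast_le, Nat.cast_pos]
    revert i
    decide +kernel
  · rintro ⟨B, h1, h2⟩
    simp only [EF1, ← Nat.cast_sum, Nat.cast_le, h1] at h2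
    rw [show ∑ x with A x = 0, w x = 11 by decide +kernel] at h2
    have k : ∀ j ≠ 0, #{x | B x = j} ≤ 4 := fun j hj => by
      have a : ∀ x, A x ≠ 0 → 3 ≤ w x := by decide
      have b : ∀ S : Finset (Fin 12), (∀ x ∈ S, B x = j) → #S * 3 ≤ ∑ x ∈ S, w x := fun S h =>
        card_nsmul_le_sum S w 3 fun x hx => a x fun e => hj ((h x hx).symm.trans ((h1 x).mpr e))
      rcases h2 j hj with c | ⟨g, -, c⟩
      · have := b {x | B x = j} (by simp)
        omega
      · have := b {x | B x = j ∧ x ≠ g} (by simp +contextual)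
        have := pred_card_le_card_erase (s := {x | B x = j}) (a := g)
        have e : (univ.filter fun x => B x = j).erase g = univ.filter fun x => B x = j ∧ x ≠ g := by
          ext; simp [and_comm]
        rw [e] at this
        omega
    have := card_eq_sum_card_fiberwise (f := B) (s := univ) (t := univ) (by simp)
    rw [Fin.sum_univ_three] at this
    simp only [h1] at this
    rw [show #{x | A x = 0} = 3 by decide +kernel] at this
    have := k 1 (by decide)
    have := k 2 (by decide)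
    simp at *
    omega

end Pool.Agent.Results.MP_a41a76_co.Twelve
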